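import Mathlib

/-!
Broadcasts, dominating sets, and the two upper domination numbers of a finite graph.
-/

set_option autoImplicit false

namespace Pool.Agent.W_MP_9b093e_co

/-- The eccentricity `e(v) = max_u d(u,v)`. -/
noncomputable def ecc {V : Type} [Fintype V] (G : SimpleGraph V) (v : V) : ℕ :=
  (Finset.univ : Finset V).sup fun u => G.dist u v

/-- A broadcast: `f v ≤ diam G` and `f v ≤ e(v)` for every vertex `v`. -/
def IsBroadcast {V : Type} [Fintype V] (G : SimpleGraph V) (f : V → ℕ) : Prop :=
  ∀ v, f v ≤ G.diam ∧ f v ≤ ecc G v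

/-- A dominating broadcast: every vertex `u` is within distance `f v` of some `v` with
`f v ≥ 1`. -/
def IsDominatingBroadcast {V : Type} [Fintype V] (G : SimpleGraph V) (f : V → ℕ) : Prop :=
  IsBroadcast G f ∧ ∀ u, ∃ v, 1 ≤ f v ∧ G.dist u v ≤ f v

/-- A minimal dominating broadcast: no dominating broadcast `g` has `g ≤ f` pointwise with
strict inequality somewhere. -/
def IsMinimalDominatingBroadcast {V : Type} [Fintype V] (G : SimpleGraph V) (f : V → ℕ) : Prop :=
  IsDominatingBroadcast G f ∧
    ∀ g : V → ℕ, IsDominatingBroadcast G g → ¬ ((∀ v, g v ≤ f v) ∧ ∃ v, g v < f v)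

/-- The upper broadcast domination number: the largest cost of a minimal dominating
broadcast. -/
noncomputable def upperBroadcastNumber {V : Type} [Fintype V] (G : SimpleGraph V) : ℕ :=
  sSup {c : ℕ | ∃ f : V → ℕ, IsMinimalDominatingBroadcast G f ∧ c = ∑ v, f v}

/-- A dominating set: every vertex is in `S` or adjacent to a vertex of `S`. -/
def IsDominatingSet {V : Type} (G : SimpleGraph V) (S : Finset V) : Prop :=
  ∀ u, ∃ v ∈ S, u = v ∨ G.Adj u v

/-- A minimal dominating set: no proper subset is dominating. -/
def IsMinimalDominatingSet {V : Type} (G : SimpleGraph V) (S : Finset V) : Prop :=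
  IsDominatingSet G S ∧ ∀ T : Finset V, T ⊂ S → ¬ IsDominatingSet G T

/-- The upper domination number: the largest cardinality of a minimal dominating set. -/
noncomputable def upperDominationNumber {V : Type} [Fintype V] (G : SimpleGraph V) : ℕ :=
  sSup {c : ℕ | ∃ S : Finset V, IsMinimalDominatingSet G S ∧ c = S.card}

end Pool.Agent.W_MP_9b093e_co
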