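import Pool.Agent.W_MP_9b093e_co.Defs

/-!
The ladder of cliques: lower bound for the upper broadcast number, upper bound for the upper
domination number.
-/

set_option autoImplicit false

namespace Pool.Agent.W_MP_9b093e_co

/-! ### General facts -/

lemma upperDominationNumber_pos {V : Type} [Fintype V] [Nonempty V] (G : SimpleGraph V) :
    1 ≤ upperDominationNumber G := by
  classical
  -- existence of a minimal dominating set
  have hex : ∃ S : Finset V, IsMinimalDominatingSet G S := by
    have huniv : IsDominatingSet G (Finset.univ : Finset V) := fun u => ⟨u, by simp, Or.inl rfl⟩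
    obtain ⟨S, hS⟩ := exists_minimal_of_wellFoundedLT (fun S : Finset V => IsDominatingSet G S)
      ⟨_, huniv⟩
    refine ⟨S, hS.prop, fun T hT hdom => ?_⟩
    exact hS.not_prop_of_lt hT hdom
  obtain ⟨S, hS⟩ := hex
  have hcard : 1 ≤ S.card := by
    obtain ⟨v, hv, _⟩ := hS.1 (Classical.arbitrary V)
    exact Finset.card_pos.mpr ⟨v, hv⟩
  refine hcard.trans (le_csSup ⟨Fintype.card V, ?_⟩ ⟨S, hS, rfl⟩)
  rintro c ⟨T, _, rfl⟩
  exact Finset.card_le_univ T

lemma cost_le_upperBroadcastNumber {V : Type} [Fintype V] (G : SimpleGraph V) (f : V → ℕ)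
    (hf : IsMinimalDominatingBroadcast G f) : ∑ v, f v ≤ upperBroadcastNumber G := by
  refine le_csSup ⟨∑ _v : V, G.diam, ?_⟩ ⟨f, hf, rfl⟩
  rintro c ⟨g, hg, rfl⟩
  exact Finset.sum_le_sum fun v _ => (hg.1.1 v).1

lemma exists_private {V : Type} (G : SimpleGraph V) (S : Finset V)
    (hS : IsMinimalDominatingSet G S) (d : V) (hd : d ∈ S) :
    ∃ p : V, ∀ v ∈ S, (p = v ∨ G.Adj p v) → v = d := by
  classical
  have h := hS.2 (S.erase d) (Finset.erase_ssubset hd)
  unfold IsDominatingSet at h
  rw [not_forall] at h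
  obtain ⟨p, hp⟩ := h
  refine ⟨p, fun v hv hpv => ?_⟩
  by_contra hne
  exact hp ⟨v, Finset.mem_erase.mpr ⟨hne, hv⟩, hpv⟩

/-! ### The graph -/

/-- Vertices: pairs (column, level) with column in `Option (Fin r)` and level in `0..k`;
the extra column `none` has no vertex at level `0`. -/
abbrev Vtx (r k : ℕ) : Type := {p : Option (Fin r) × Fin (k + 1) // p.1 = none → p.2 ≠ 0}

def lev {r k : ℕ} (x : Vtx r k) : ℕ := (x.1.2 : ℕ)

def col {r k : ℕ} (x : Vtx r k) : Option (Fin r) := x.1.1

lemma vtx_ext {r k : ℕ} {x y : Vtx r k} (h1 : col x = col y) (h2 : lev x = lev y) : x = y := by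
  apply Subtype.ext
  apply Prod.ext
  · exact h1
  · exact Fin.ext h2

/-- The graph: all vertices of one level are pairwise adjacent, and in each column `some i`
vertices on consecutive levels are adjacent. -/
def gr (r k : ℕ) : SimpleGraph (Vtx r k) where
  Adj x y := x ≠ y ∧ (lev x = lev y ∨
    (col x = col y ∧ col x ≠ none ∧ (lev x = lev y + 1 ∨ lev y = lev x + 1)))
  symm := by
    constructor
    rintro x y ⟨h1, h2⟩
    refine ⟨h1.symm, ?_⟩
    rcases h2 with h | ⟨h, h', h''⟩
    · exact Or.inl h.symm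
    · exact Or.inr ⟨h.symm, by rwa [← h], h''.symm⟩
  loopless := by
    constructor
    intro x h
    exact h.1 rfl

/-- The vertex of column `some i` and level `m`. -/
def vx {r k : ℕ} (i : Fin r) (m : ℕ) (hm : m ≤ k) : Vtx r k :=
  ⟨(some i, ⟨m, Nat.lt_succ_of_le hm⟩), by simp⟩

@[simp] lemma lev_vx {r k : ℕ} (i : Fin r) (m : ℕ) (hm : m ≤ k) : lev (vx i m hm) = m := rfl
@[simp] lemma col_vx {r k : ℕ} (i : Fin r) (m : ℕ) (hm : m ≤ k) : col (vx i m hm) = some i := rfl

lemma lev_le {r k : ℕ} (x : Vtx r k) : lev x ≤ k := Nat.lt_succ_iff.mp x.1.2.2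

lemma lev_pos_of_col_none {r k : ℕ} (x : Vtx r k) (h : col x = none) : 1 ≤ lev x := by
  have := x.2 h
  rw [Nat.one_le_iff_ne_zero]
  intro h0
  apply this
  apply Fin.ext
  simpa [lev] using h0

/-- The vertex of the extra column on level `m`, for `1 ≤ m ≤ k`. -/
def zx {r k : ℕ} (m : ℕ) (hm : m ≤ k) (hm' : 1 ≤ m) : Vtx r k :=
  ⟨(none, ⟨m, Nat.lt_succ_of_le hm⟩), by
    intro _ h
    have := congrArg Fin.val h
    simp at this
    omega⟩

@[simp] lemma lev_zx {r k : ℕ} (m : ℕ) (hm : m ≤ k) (hm' : 1 ≤ m) :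
    lev (zx (r := r) m hm hm') = m := rfl
@[simp] lemma col_zx {r k : ℕ} (m : ℕ) (hm : m ≤ k) (hm' : 1 ≤ m) :
    col (zx (r := r) m hm hm') = none := rfl

lemma walk_up {r k : ℕ} (i : Fin r) (m : ℕ) (hm : m ≤ k) :
    ∀ n : ℕ, (hn : m + n ≤ k) → ∃ w : (gr r k).Walk (vx i m hm) (vx i (m + n) hn), w.length = n := by
  intro n
  induction n with
  | zero => intro hn; exact ⟨SimpleGraph.Walk.nil, rfl⟩
  | succ n ih =>
    intro hn
    obtain ⟨w, hw⟩ := ih (by omega)
    have hadj : (gr r k).Adj (vx i (m + n) (by omega)) (vx i (m + (n + 1)) hn) := by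
      refine ⟨?_, Or.inr ⟨rfl, by simp, Or.inr (by simp; omega)⟩⟩
      intro h
      have := congrArg lev h
      simp at this
    exact ⟨w.concat hadj, by simp [hw]⟩

lemma reach_same_lev {r k : ℕ} (x y : Vtx r k) (h : lev x = lev y) :
    ∃ w : (gr r k).Walk x y, w.length ≤ 1 := by
  by_cases hxy : x = y
  · subst hxy; exact ⟨SimpleGraph.Walk.nil, by simp⟩
  · have hadj : (gr r k).Adj x y := ⟨hxy, Or.inl h⟩
    exact ⟨hadj.toWalk, le_of_eq rfl⟩

lemma gr_connected (r k : ℕ) (hr : 0 < r) : (gr r k).Connected := by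
  let i0 : Fin r := ⟨0, hr⟩
  have key : ∀ x : Vtx r k, (gr r k).Reachable (vx i0 0 (Nat.zero_le k)) x := by
    intro x
    obtain ⟨w1, _⟩ := walk_up (k := k) i0 0 (Nat.zero_le k) (lev x) (by simpa using lev_le x)
    obtain ⟨w2, _⟩ := reach_same_lev (vx i0 (0 + lev x) (by simpa using lev_le x)) x (by simp)
    exact ⟨w1.append w2⟩
  have : Nonempty (Vtx r k) := ⟨vx i0 0 (Nat.zero_le k)⟩
  exact ⟨fun x y => (key x).symm.trans (key y)⟩

/-- potential function -/
noncomputable def pot {r k : ℕ} (i : Fin r) (x : Vtx r k) : ℕ :=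
  open Classical in lev x + if col x = some i then 0 else 1

lemma pot_lip {r k : ℕ} (i : Fin r) (x y : Vtx r k) (h : (gr r k).Adj x y) :
    pot i y ≤ pot i x + 1 := by
  classical
  obtain ⟨hne, h | ⟨h1, h2, h3⟩⟩ := h
  · unfold pot
    split_ifs <;> omega
  · unfold pot
    rw [h1]
    split_ifs <;> omega

lemma pot_walk {r k : ℕ} (i : Fin r) {x y : Vtx r k} (w : (gr r k).Walk x y) :
    pot i y ≤ pot i x + w.length := by
  induction w with
  | nil => simp
  | cons hadj w ih =>
    have := pot_lip i _ _ hadj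
    simp only [SimpleGraph.Walk.length_cons]
    omega

lemma pot_dist {r k : ℕ} (i : Fin r) (x y : Vtx r k) :
    pot i y ≤ pot i x + (gr r k).dist x y := by
  have hc := gr_connected r k (Nat.pos_of_ne_zero (by rintro rfl; exact i.elim0))
  obtain ⟨w, hw⟩ := hc.exists_walk_length_eq_dist x y
  rw [← hw]
  exact pot_walk i w

/-- The broadcast: value `k` on the top level of the ordinary columns. -/
noncomputable def fb (r k : ℕ) (x : Vtx r k) : ℕ :=
  open Classical in if lev x = k ∧ col x ≠ none then k else 0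

lemma dist_bot_top_ge {r k : ℕ} (i j : Fin r) (hij : i ≠ j) :
    k + 1 ≤ (gr r k).dist (vx i 0 (Nat.zero_le k)) (vx j k le_rfl) := by
  classical
  have := pot_dist i (vx i 0 (Nat.zero_le k)) (vx j k le_rfl)
  have hne : ¬ (some j : Option (Fin r)) = some i := by
    intro h; exact hij (Option.some.inj h).symm
  simp [pot, hne] at this
  omega

lemma dist_bot_top_ge' {r k : ℕ} (i j : Fin r) :
    k ≤ (gr r k).dist (vx i 0 (Nat.zero_le k)) (vx j k le_rfl) := by
  classical
  have := pot_dist i (vx i 0 (Nat.zero_le k)) (vx j k le_rfl)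
  simp [pot] at this
  omega

lemma exists_eq_vx_top {r k : ℕ} (x : Vtx r k) (h : lev x = k ∧ col x ≠ none) :
    ∃ j : Fin r, x = vx j k le_rfl := by
  obtain ⟨j, hj⟩ := Option.ne_none_iff_exists'.mp h.2
  exact ⟨j, vtx_ext (by rw [hj]; rfl) (by rw [h.1]; rfl)⟩

lemma fb_isBroadcast (r k : ℕ) (hr : 0 < r) : IsBroadcast (gr r k) (fb r k) := by
  classical
  intro v
  unfold fb
  split_ifs with h
  · obtain ⟨j, rfl⟩ := exists_eq_vx_top v h
    have h1 := dist_bot_top_ge' (k := k) j j
    constructor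
    · refine h1.trans (SimpleGraph.dist_le_diam ?_)
      have hc := gr_connected r k hr
      have : Nonempty (Vtx r k) := ⟨vx j k le_rfl⟩
      exact SimpleGraph.connected_iff_ediam_ne_top.mp hc
    · refine h1.trans ?_
      exact Finset.le_sup (f := fun u => (gr r k).dist u (vx j k le_rfl))
        (Finset.mem_univ (vx j 0 (Nat.zero_le k)))
  · exact ⟨Nat.zero_le _, Nat.zero_le _⟩

lemma fb_dominating (r k : ℕ) (hr : 0 < r) (hk : 1 ≤ k) :
    IsDominatingBroadcast (gr r k) (fb r k) := by
  classical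
  refine ⟨fb_isBroadcast r k hr, fun u => ?_⟩
  by_cases hu : col u = none
  · let i0 : Fin r := ⟨0, hr⟩
    refine ⟨vx i0 k le_rfl, by simp [fb, hk], ?_⟩
    have hle := lev_le u
    have hpos := lev_pos_of_col_none u hu
    obtain ⟨w1, hw1⟩ := reach_same_lev u (vx i0 (lev u) hle) rfl
    obtain ⟨w2, hw2⟩ := walk_up (k := k) i0 (lev u) hle (k - lev u) (by omega)
    have hd : (gr r k).dist u (vx i0 (lev u + (k - lev u)) (by omega)) ≤ 1 + (k - lev u) := by
      refine (SimpleGraph.dist_le (w1.append w2)).trans ?_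
      rw [SimpleGraph.Walk.length_append, hw2]
      omega
    have heq : (vx i0 (lev u + (k - lev u)) (by omega) : Vtx r k) = vx i0 k le_rfl :=
      vtx_ext rfl (by simp; omega)
    rw [heq] at hd
    refine hd.trans ?_
    simp [fb]
    omega
  · obtain ⟨j, hj⟩ := Option.ne_none_iff_exists'.mp hu
    refine ⟨vx j k le_rfl, by simp [fb, hk], ?_⟩
    have hle := lev_le u
    obtain ⟨w2, hw2⟩ := walk_up (k := k) j (lev u) hle (k - lev u) (by omega)
    have hd : (gr r k).dist (vx j (lev u) hle) (vx j (lev u + (k - lev u)) (by omega)) ≤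
        k - lev u := (SimpleGraph.dist_le w2).trans hw2.le
    have heq : (vx j (lev u + (k - lev u)) (by omega) : Vtx r k) = vx j k le_rfl :=
      vtx_ext rfl (by simp; omega)
    have heq' : (vx j (lev u) hle : Vtx r k) = u := vtx_ext (by simp [hj]) rfl
    rw [heq, heq'] at hd
    refine hd.trans ?_
    simp [fb]

lemma fb_minimal (r k : ℕ) (hr : 0 < r) (hk : 1 ≤ k) :
    IsMinimalDominatingBroadcast (gr r k) (fb r k) := by
  classical
  refine ⟨fb_dominating r k hr hk, ?_⟩
  rintro g ⟨_, hg⟩ ⟨hle, v, hv⟩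
  have hfv : fb r k v ≠ 0 := by omega
  have hv' : lev v = k ∧ col v ≠ none := by
    by_contra h
    exact hfv (by simp only [fb, if_neg h])
  obtain ⟨i, rfl⟩ := exists_eq_vx_top v hv'
  obtain ⟨u, hu1, hu2⟩ := hg (vx i 0 (Nat.zero_le k))
  have hfu : fb r k u ≠ 0 := by have := hle u; omega
  have hu' : lev u = k ∧ col u ≠ none := by
    by_contra h
    exact hfu (by simp only [fb, if_neg h])
  obtain ⟨j, rfl⟩ := exists_eq_vx_top u hu'
  have hfk : ∀ l : Fin r, fb r k (vx l k le_rfl) = k := by intro l; simp [fb]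
  have hgj := hle (vx j k le_rfl)
  rw [hfk] at hgj hv
  by_cases hij : i = j
  · subst hij
    have := dist_bot_top_ge' (k := k) i i
    omega
  · have := dist_bot_top_ge (k := k) i j hij
    omega

lemma fb_cost (r k : ℕ) : r * k ≤ ∑ x, fb r k x := by
  classical
  have hinj : Function.Injective (fun i : Fin r => (vx i k le_rfl : Vtx r k)) := by
    intro i j h
    have := congrArg col h
    simpa using this
  calc r * k = ∑ i : Fin r, fb r k (vx i k le_rfl) := by simp [fb]
    _ = ∑ x ∈ (Finset.univ : Finset (Fin r)).map ⟨_, hinj⟩, fb r k x := by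
        rw [Finset.sum_map]; rfl
    _ ≤ ∑ x, fb r k x := Finset.sum_le_sum_of_subset (Finset.subset_univ _)

lemma lower_bound (r k : ℕ) (hr : 0 < r) (hk : 1 ≤ k) :
    r * k ≤ upperBroadcastNumber (gr r k) :=
  (fb_cost r k).trans (cost_le_upperBroadcastNumber _ _ (fb_minimal r k hr hk))

/-- Every dominating set meets each level `m ≥ 1`. -/
lemma meets_level {r k : ℕ} (S : Finset (Vtx r k)) (hS : IsDominatingSet (gr r k) S)
    (m : ℕ) (hm : m ≤ k) (hm' : 1 ≤ m) : ∃ v ∈ S, lev v = m := by
  obtain ⟨v, hv, h⟩ := hS (zx m hm hm')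
  refine ⟨v, hv, ?_⟩
  rcases h with h | ⟨_, h | ⟨_, h, _⟩⟩
  · rw [← h]; rfl
  · rw [← h]; rfl
  · exact absurd rfl h

lemma card_le {r k : ℕ} (hr : 0 < r) (S : Finset (Vtx r k))
    (hS : IsMinimalDominatingSet (gr r k) S) : S.card ≤ r + k := by
  classical
  have hp : ∀ d : S, ∃ p : Vtx r k, ∀ v ∈ S, (p = v ∨ (gr r k).Adj p v) → v = d :=
    fun d => exists_private _ S hS d.1 d.2
  choose p hp using hp
  -- every private neighbour is dominated
  have hdom : ∀ d : S, (p d = (d : Vtx r k) ∨ (gr r k).Adj (p d) d) := by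
    intro d
    obtain ⟨v, hv, h⟩ := hS.1 (p d)
    have := hp d v hv h
    rwa [this] at h
  let code : S → ℕ ⊕ ℕ := fun d =>
    if lev (p d) = 0 then
      Sum.inl (match col (p d) with
        | some i => (i : ℕ)
        | none => 0)
    else Sum.inr (lev (p d) - 1)
  have hcode : ∀ d : S, code d ∈ (Finset.range r).disjSum (Finset.range k) := by
    intro d
    simp only [code]
    split_ifs with h
    · rw [Finset.inl_mem_disjSum, Finset.mem_range]
      rcases hc : col (p d) with _ | i
      · exact hr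
      · exact i.2
    · rw [Finset.inr_mem_disjSum, Finset.mem_range]
      have := lev_le (p d)
      omega
  have hinj : Function.Injective code := by
    intro d e hde
    simp only [code] at hde
    by_cases h1 : lev (p d) = 0 <;> by_cases h2 : lev (p e) = 0
    · rw [if_pos h1, if_pos h2] at hde
      have hcd : col (p d) ≠ none := fun h => by
        have := lev_pos_of_col_none _ h; omega
      have hce : col (p e) ≠ none := fun h => by
        have := lev_pos_of_col_none _ h; omega
      obtain ⟨i, hi⟩ := Option.ne_none_iff_exists'.mp hcd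
      obtain ⟨j, hj⟩ := Option.ne_none_iff_exists'.mp hce
      rw [hi, hj] at hde
      have hij : i = j := Fin.ext (Sum.inl.inj hde)
      have hpe : p d = p e := vtx_ext (by rw [hi, hj, hij]) (by rw [h1, h2])
      apply Subtype.ext
      have := hp e d d.2 (by rw [← hpe]; exact hdom d)
      exact this
    · rw [if_pos h1, if_neg h2] at hde
      exact absurd hde (by simp)
    · rw [if_neg h1, if_pos h2] at hde
      exact absurd hde (by simp)
    · rw [if_neg h1, if_neg h2] at hde
      have hl : lev (p d) = lev (p e) := by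
        have := Sum.inr.inj hde
        omega
      obtain ⟨v, hv, hlv⟩ := meets_level S hS.1 (lev (p d)) (lev_le _) (by omega)
      have hadj : ∀ x : Vtx r k, lev x = lev v → (x = v ∨ (gr r k).Adj x v) := by
        intro x hx
        by_cases hxv : x = v
        · exact Or.inl hxv
        · exact Or.inr ⟨hxv, Or.inl hx⟩
      have e1 := hp d v hv (hadj _ hlv.symm)
      have e2 := hp e v hv (hadj _ (by rw [hlv, hl]))
      apply Subtype.ext
      rw [← e1, ← e2]
  have hcard : (Finset.univ : Finset S).card ≤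
      ((Finset.range r).disjSum (Finset.range k)).card :=
    Finset.card_le_card_of_injOn code (fun d _ => hcode d) (fun d _ e _ h => hinj h)
  simpa using hcard

lemma upper_bound (r k : ℕ) (hr : 0 < r) : upperDominationNumber (gr r k) ≤ r + k := by
  unfold upperDominationNumber
  refine csSup_le' ?_
  rintro c ⟨S, hS, rfl⟩
  exact card_le hr S hS

end Pool.Agent.W_MP_9b093e_co
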